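import Pool.Agent.helper48.AN.SpecZ

/-! # Project an, module ZE: division by `X` -/

namespace AN

open scoped Classical
open Pool.Agent.helper53.AU

noncomputable section

theorem ZE_comb {R : Type} [CommRing R] {g : ℕ} {γ : Fin g → ℕ} (a : ℕ → LS R) (M : ℕ) (c : ℕ → R) :
    (∑ r ∈ Finset.range (M + 1), if Gp γ r then 0 else c r • a r) ∈ AA γ a := by
  refine Submodule.sum_mem _ fun r _ => ?_
  by_cases h : Gp γ r
  · rw [if_pos h]
    exact Submodule.zero_mem _
  · rw [if_neg h]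
    exact Submodule.smul_mem _ _ (Submodule.subset_span ⟨r, h, rfl⟩)

theorem ZE_one (hKA : KA_stmt) {k : Type} [Field k] {g : ℕ} {γ : Fin g → ℕ}
    {A : ℕ → LS (PowerSeries k)} (hA : IsK γ A) (x : LS (PowerSeries k)) (hx : x ∈ AA γ A)
    (h0 : mp (PowerSeries.constantCoeff (R := k)) x = 0) :
    ∃ y ∈ AA γ A, x = (PowerSeries.X : PowerSeries k) • y := by
  obtain ⟨M, hM⟩ := exists_lb_nat x
  have hexp := (hKA (PowerSeries k) g γ A hA).2.2 x hx M (fun r hr _ => hM _ (by omega))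
  have hdiv : ∀ n : ℤ, ∃ c : PowerSeries k, cf x n = PowerSeries.X * c := by
    intro n
    have h1 : (PowerSeries.constantCoeff (R := k)) (cf x n) = 0 := by
      rw [← cf_mp, h0, cf_zero]
    exact PowerSeries.X_dvd_iff.mpr h1
  choose c hc using hdiv
  refine ⟨∑ r ∈ Finset.range (M + 1), if Gp γ r then 0 else c (-(r : ℤ)) • A r,
    ZE_comb A M fun r => c (-(r : ℤ)), ?_⟩
  rw [hexp, Finset.smul_sum]
  refine Finset.sum_congr rfl fun r _ => ?_
  by_cases h : Gp γ r
  · rw [if_pos h, if_pos h, smul_zero]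
  · rw [if_neg h, if_neg h, hc, mul_smul]

theorem ZE_two (hKA : KA_stmt) {k : Type} [Field k] {g : ℕ} {γ : Fin g → ℕ}
    {A : ℕ → LS (PowerSeries k)} (hA : IsK γ A) (m : ℤ) : ∀ (N : ℕ) (x : LS (PowerSeries k)),
    x ∈ AA γ A → ¬ (PowerSeries.X : PowerSeries k) ^ N ∣ cf x m →
    ∃ (n : ℕ) (y : LS (PowerSeries k)), y ∈ AA γ A ∧
      mp (PowerSeries.constantCoeff (R := k)) y ≠ 0 ∧ x = (PowerSeries.X : PowerSeries k) ^ n • y := by
  intro N
  induction N with
  | zero =>
    intro x _ hd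
    exact absurd (by rw [pow_zero]; exact one_dvd _) hd
  | succ N ih =>
    intro x hx hd
    by_cases h0 : mp (PowerSeries.constantCoeff (R := k)) x = 0
    · obtain ⟨y, hy, hxy⟩ := ZE_one hKA hA x hx h0
      have hd' : ¬ (PowerSeries.X : PowerSeries k) ^ N ∣ cf y m := by
        intro h
        apply hd
        rw [hxy, cf_smul, pow_succ']
        exact mul_dvd_mul_left _ h
      obtain ⟨n, y', hy', hne, hyy⟩ := ih y hy hd'
      refine ⟨n + 1, y', hy', hne, ?_⟩
      rw [hxy, hyy, smul_smul, pow_succ']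
    · exact ⟨0, x, hx, h0, by rw [pow_zero, one_smul]⟩

theorem ZE_loc {k : Type} [Field k] (l : LaurentSeries k) : ∃ (n : ℕ) (f : PowerSeries k),
    (algebraMap (PowerSeries k) (LaurentSeries k) PowerSeries.X) ^ n * l =
      algebraMap (PowerSeries k) (LaurentSeries k) f := by
  obtain ⟨⟨f, s⟩, h⟩ := IsLocalization.surj (Submonoid.powers (PowerSeries.X : PowerSeries k)) l
  obtain ⟨n, hn⟩ := s.2
  refine ⟨n, f, ?_⟩
  rw [← map_pow, mul_comm, ← h, ← hn]

theorem ZE (hKA : KA_stmt) : ZE_stmt := by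
  intro k _ g γ A hA
  refine ⟨fun x hx h0 => ZE_one hKA hA x hx h0, ?_, ?_⟩
  · intro x hx hne
    obtain ⟨m, hm⟩ : ∃ m, cf x m ≠ 0 := by
      by_contra hcon
      push Not at hcon
      exact hne (LS.ext fun n => by rw [hcon n, cf_zero])
    obtain ⟨N, hN⟩ : ∃ N : ℕ, ¬ (PowerSeries.X : PowerSeries k) ^ N ∣ cf x m := by
      by_contra hcon
      push Not at hcon
      apply hm
      ext n
      exact PowerSeries.X_pow_dvd_iff.mp (hcon (n + 1)) n (Nat.lt_succ_self n)
    exact ZE_two hKA hA m N x hx hN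
  · intro x hx
    refine Submodule.span_induction (p := fun x _ => ∃ (n : ℕ) (y : LS (PowerSeries k)), y ∈ AA γ A ∧
      LS.C (algebraMap (PowerSeries k) (LaurentSeries k) PowerSeries.X) ^ n * x =
        mp (algebraMap (PowerSeries k) (LaurentSeries k)) y) ?_ ?_ ?_ ?_ hx
    · rintro x ⟨r, hr, rfl⟩
      exact ⟨0, A r, Submodule.subset_span ⟨r, hr, rfl⟩, by rw [pow_zero, one_mul]⟩
    · exact ⟨0, 0, Submodule.zero_mem _, by rw [mul_zero, map_zero]⟩
    · rintro x x' _ _ ⟨n, y, hy, hxy⟩ ⟨n', y', hy', hxy'⟩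
      refine ⟨n + n', (PowerSeries.X : PowerSeries k) ^ n' • y +
        (PowerSeries.X : PowerSeries k) ^ n • y',
        Submodule.add_mem _ (Submodule.smul_mem _ _ hy) (Submodule.smul_mem _ _ hy'), ?_⟩
      rw [map_add, mp_smul, mp_smul, ← C_mul, ← C_mul, ← hxy, ← hxy', map_pow, map_pow, map_pow,
        map_pow]
      ring
    · rintro l x _ ⟨n, y, hy, hxy⟩
      obtain ⟨n', f, hf⟩ := ZE_loc l
      refine ⟨n' + n, f • y, Submodule.smul_mem _ _ hy, ?_⟩
      rw [mp_smul, ← C_mul l x, ← C_mul (algebraMap (PowerSeries k) (LaurentSeries k) f), ← hf,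
        ← hxy, map_mul, map_pow]
      ring

end

end AN
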